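import Pool.Agent.helper97.KR.Spec

/-!
# Row kr:MIN (MP_974a61_co, project KR): a connected multigraph on `S` has at least `|S| - 1` edges
-/

set_option autoImplicit false

namespace Pool.Agent.helper97.KR

open Finset Classical

noncomputable section

/-- the simple graph on `S` -/
def MIN_graph {V E : Type} (ends : E → Sym2 V) (S : Finset V) (F : Finset E) : SimpleGraph S where
  Adj a b := a ≠ b ∧ ∃ e ∈ F, ends e = s(a.1, b.1)
  symm := ⟨by
    rintro a b ⟨h, e, he, hab⟩
    exact ⟨h.symm, e, he, by rw [hab, Sym2.eq_swap]⟩⟩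
  loopless := ⟨by
    rintro a ⟨h, -⟩
    exact h rfl⟩

theorem MIN_reach {V E : Type} {ends : E → Sym2 V} {S : Finset V} {F : Finset E}
    (hF : ∀ e ∈ F, ∀ v ∈ ends e, v ∈ S) {u : V} (hu : u ∈ S) {w : V}
    (h : Relation.ReflTransGen (Jn ends (F : Set E)) u w) :
    ∃ hw : w ∈ S, (MIN_graph ends S F).Reachable ⟨u, hu⟩ ⟨w, hw⟩ := by
  induction h with
  | refl => exact ⟨hu, SimpleGraph.Reachable.refl _⟩
  | @tail b c _ hbc ih =>
    obtain ⟨hb, hr⟩ := ih
    obtain ⟨e, he, hec⟩ := hbc
    have hc : c ∈ S := hF e (Finset.mem_coe.mp he) c (by rw [hec]; exact Sym2.mem_mk_right _ _)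
    refine ⟨hc, ?_⟩
    by_cases hbc : b = c
    · subst hbc
      exact hr
    · refine hr.trans (SimpleGraph.Adj.reachable ?_)
      refine ⟨fun h => hbc (congrArg Subtype.val h), e, Finset.mem_coe.mp he, hec⟩

theorem MIN : MIN_stmt := by
  intro V E ends S F hF hcon
  rcases S.eq_empty_or_nonempty with hS | hS
  · rw [hS, Finset.card_empty]
    omega
  obtain ⟨u0, hu0⟩ := hS
  have hconn : (MIN_graph ends S F).Connected := by
    have : Nonempty S := ⟨⟨u0, hu0⟩⟩
    refine ⟨fun a b => ?_⟩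
    obtain ⟨hb, hr⟩ := MIN_reach hF a.2 (hcon a.1 a.2 b.1 b.2)
    exact hr
  have h1 := hconn.card_vert_le_card_edgeSet_add_one
  have hex : ∀ x : (MIN_graph ends S F).edgeSet, ∃ e ∈ F, ends e = Sym2.map Subtype.val x.1 := by
    rintro ⟨x, hx⟩
    induction x with
    | _ a b =>
      obtain ⟨-, e, he, hab⟩ := hx
      exact ⟨e, he, hab⟩
  choose g hg hgx using hex
  have h2 : Nat.card (MIN_graph ends S F).edgeSet ≤ Nat.card F := by
    apply Nat.card_le_card_of_injective (fun x => (⟨g x, hg x⟩ : F))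
    intro x y hxy
    have h3 : g x = g y := congrArg Subtype.val hxy
    apply Subtype.ext
    apply Sym2.map.injective Subtype.val_injective
    rw [← hgx, ← hgx, h3]
  have h4 : Nat.card S = S.card := by simp
  have h5 : Nat.card F = F.card := by simp
  omega

end

end Pool.Agent.helper97.KR
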